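import Mathlib

/-! The circle, the groups `Ĝ`, `N`, `G = Ĝ/N`, the map `p`, and piecewise isometric permutations. -/

open MeasureTheory Set Filter Topology Cardinal

namespace Pool.Agent.Lib_MP_83934b_an

/-- The circle `S = ℝ/ℤ`, with its Lebesgue (Haar) probability measure `volume`. -/
abbrev S : Type := UnitAddCircle

/-- `f` is a Lebesgue measure space automorphism of `S`: `f` and `f⁻¹` are Lebesgue measurable
(preimages of Lebesgue measurable sets are Lebesgue measurable; in Mathlib the Lebesgue measurable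
sets are the `NullMeasurableSet`s of `volume`) and `f` preserves Lebesgue measure. -/
def IsLebesgueAut (f : Equiv.Perm S) : Prop :=
  (∀ A : Set S, NullMeasurableSet A volume → NullMeasurableSet (f ⁻¹' A) volume) ∧
  (∀ A : Set S, NullMeasurableSet A volume → NullMeasurableSet (f.symm ⁻¹' A) volume) ∧
  (∀ A : Set S, NullMeasurableSet A volume → volume (f ⁻¹' A) = volume A)

theorem IsLebesgueAut.mul {f g : Equiv.Perm S} (hf : IsLebesgueAut f) (hg : IsLebesgueAut g) :
    IsLebesgueAut (f * g) := by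
  obtain ⟨hf1, hf2, hf3⟩ := hf
  obtain ⟨hg1, hg2, hg3⟩ := hg
  refine ⟨fun A hA => ?_, fun A hA => ?_, fun A hA => ?_⟩
  · rw [Equiv.Perm.coe_mul, Set.preimage_comp]
    exact hg1 _ (hf1 A hA)
  · have : ⇑(f * g).symm = g.symm ∘ f.symm := rfl
    rw [this, Set.preimage_comp]
    exact hf2 _ (hg2 A hA)
  · rw [Equiv.Perm.coe_mul, Set.preimage_comp, hg3 _ (hf1 A hA), hf3 A hA]

theorem IsLebesgueAut.one : IsLebesgueAut 1 := by
  refine ⟨fun A hA => ?_, fun A hA => ?_, fun A hA => ?_⟩
  · rw [Equiv.Perm.coe_one, Set.preimage_id]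
    exact hA
  · have : ⇑(1 : Equiv.Perm S).symm = id := rfl
    rw [this, Set.preimage_id]
    exact hA
  · rw [Equiv.Perm.coe_one, Set.preimage_id]

theorem IsLebesgueAut.inv {f : Equiv.Perm S} (hf : IsLebesgueAut f) : IsLebesgueAut f⁻¹ := by
  obtain ⟨hf1, hf2, hf3⟩ := hf
  have e1 : ⇑f⁻¹ = ⇑f.symm := rfl
  have e2 : ⇑f⁻¹.symm = ⇑f := rfl
  refine ⟨fun A hA => ?_, fun A hA => ?_, fun A hA => ?_⟩
  · rw [e1]
    exact hf2 A hA
  · rw [e2]
    exact hf1 A hA
  · rw [e1, ← hf3 _ (hf2 A hA), ← Set.preimage_comp, Equiv.symm_comp_self, Set.preimage_id]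

/-- The group `Ĝ` of the permutations `f` of `S` such that `f` and `f⁻¹` are Lebesgue measurable
and `f` preserves Lebesgue measure. -/
def Ghat : Subgroup (Equiv.Perm S) where
  carrier := {f | IsLebesgueAut f}
  mul_mem' := IsLebesgueAut.mul
  one_mem' := IsLebesgueAut.one
  inv_mem' := IsLebesgueAut.inv

/-- `f` fixes almost every point. -/
def AETrivial (f : Ghat) : Prop := ∀ᵐ x ∂(volume : Measure S), (f : Equiv.Perm S) x = x

theorem AETrivial.mul {f g : Ghat} (hf : AETrivial f) (hg : AETrivial g) : AETrivial (f * g) := by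
  unfold AETrivial at *
  filter_upwards [hf, hg] with x h1 h2
  simp [h1, h2]

theorem AETrivial.one : AETrivial 1 := by
  unfold AETrivial
  simp

theorem AETrivial.inv {f : Ghat} (hf : AETrivial f) : AETrivial f⁻¹ := by
  unfold AETrivial at *
  filter_upwards [hf] with x h1
  have : (f : Equiv.Perm S).symm x = x := by
    rw [Equiv.symm_apply_eq, h1]
  simpa using this

/-- The subgroup `N` of `Ĝ`: those `f` with `f x = x` for almost every `x`. -/
def N : Subgroup Ghat where
  carrier := {f | AETrivial f}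
  mul_mem' := AETrivial.mul
  one_mem' := AETrivial.one
  inv_mem' := AETrivial.inv

theorem null_preimage (f : Ghat) {Z : Set S} (hZ : volume Z = 0) :
    volume ((f : Equiv.Perm S) ⁻¹' Z) = 0 := by
  rw [f.2.2.2 Z (NullMeasurableSet.of_null hZ), hZ]

theorem ae_comp (f : Ghat) {P : S → Prop} (h : ∀ᵐ x ∂(volume : Measure S), P x) :
    ∀ᵐ x ∂(volume : Measure S), P ((f : Equiv.Perm S) x) := by
  rw [ae_iff] at *
  exact null_preimage f h

theorem AETrivial.conj (n : Ghat) (hn : AETrivial n) (g : Ghat) : AETrivial (g * n * g⁻¹) := by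
  have h1 := ae_comp g⁻¹ (P := fun x => (n : Equiv.Perm S) x = x) hn
  show ∀ᵐ x ∂(volume : Measure S), ((g * n * g⁻¹ : Ghat) : Equiv.Perm S) x = x
  filter_upwards [h1] with x hx
  rw [Subgroup.coe_mul, Subgroup.coe_mul, Equiv.Perm.mul_apply, Equiv.Perm.mul_apply, hx]
  rw [← Equiv.Perm.mul_apply, ← Subgroup.coe_mul, mul_inv_cancel, Subgroup.coe_one,
    Equiv.Perm.one_apply]

instance : N.Normal := ⟨AETrivial.conj⟩

/-- The group `G = Ĝ/N` (the quotient group). -/
def G : Type := Ghat ⧸ N

/-- The group structure of `G = Ĝ/N`: that of the quotient group. -/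
instance : Group G := QuotientGroup.Quotient.group N

/-- The quotient map `p : Ĝ → G = Ĝ/N`. -/
def p : Ghat →* G := QuotientGroup.mk' N

/-- A permutation of the circle is piecewise isometric if there is a finite set `F` such that on
every interval (connected subset) `I` of `S ∖ F` it has the form `x ↦ x + c` or `x ↦ -x + c`. -/
def IsPiecewiseIsometric (f : Equiv.Perm S) : Prop :=
  ∃ F : Finset S, ∀ I : Set S, IsConnected I → Disjoint I (F : Set S) →
    ∃ c : S, (∀ x ∈ I, f x = x + c) ∨ (∀ x ∈ I, f x = -x + c)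

end Pool.Agent.Lib_MP_83934b_an
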