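import Mathlib

/-! A null set of cardinality continuum in the circle. -/

open MeasureTheory Set Filter Topology Cardinal

namespace Pool.Agent.Lib_MP_83934b_an

/-- a null set on the line -/
theorem cantor_null : volume (Set.range (cantorFunction (1/4 : ℝ))) = 0 := by
  set K : Set ℝ := Set.range (cantorFunction (1/4 : ℝ)) with hK
  have hsub : K ⊆ ((fun x : ℝ => (1/4 : ℝ) * x) '' K) ∪ ((fun x : ℝ => 1 + (1/4 : ℝ) * x) '' K) := by
    rintro _ ⟨f, rfl⟩
    rw [cantorFunction_succ f (by norm_num) (by norm_num)]
    cases h : f 0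
    · left
      exact ⟨_, ⟨fun n => f (n+1), rfl⟩, by simp⟩
    · right
      exact ⟨_, ⟨fun n => f (n+1), rfl⟩, by simp⟩
  have hbdd : K ⊆ Set.Icc 0 (4/3) := by
    rintro _ ⟨f, rfl⟩
    have h1 : cantorFunction (1/4 : ℝ) f ≤ cantorFunction (1/4 : ℝ) (fun _ => true) :=
      cantorFunction_le (by norm_num) (by norm_num) (by intro n _; rfl)
    have h2 : cantorFunction (1/4 : ℝ) (fun _ => false) ≤ cantorFunction (1/4 : ℝ) f :=
      cantorFunction_le (by norm_num) (by norm_num) (by intro n h; simp at h)
    have h3 : cantorFunction (1/4 : ℝ) (fun _ => true) = 4/3 := by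
      have := cantorFunction_succ (c := 1/4) (fun _ => true) (by norm_num) (by norm_num)
      simp at this
      linarith
    have h4 : cantorFunction (1/4 : ℝ) (fun _ => false) = 0 := by
      have := cantorFunction_succ (c := 1/4) (fun _ => false) (by norm_num) (by norm_num)
      simp at this
      linarith
    constructor <;> linarith
  have hfin : volume K < ⊤ := by
    refine lt_of_le_of_lt (measure_mono hbdd) ?_
    simp
  have e1 : volume ((fun x : ℝ => (1/4 : ℝ) * x) '' K) = ENNReal.ofReal (1/4) * volume K := by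
    have := Measure.addHaar_smul (volume : Measure ℝ) (1/4 : ℝ) K
    simp only [Module.finrank_self, pow_one] at this
    rw [abs_of_pos (by norm_num)] at this
    rw [← this]
    rfl
  have e2 : volume ((fun x : ℝ => 1 + (1/4 : ℝ) * x) '' K) = ENNReal.ofReal (1/4) * volume K := by
    have : (fun x : ℝ => 1 + (1/4 : ℝ) * x) '' K = (fun y => 1 + y) '' ((fun x : ℝ => (1/4 : ℝ) * x) '' K) := by
      rw [Set.image_image]
    rw [this, Set.image_add_left, measure_preimage_add, e1]
  have hle : volume K ≤ ENNReal.ofReal (1/2) * volume K := by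
    calc volume K ≤ volume (((fun x : ℝ => (1/4 : ℝ) * x) '' K) ∪ ((fun x : ℝ => 1 + (1/4 : ℝ) * x) '' K)) := measure_mono hsub
      _ ≤ _ := measure_union_le _ _
      _ = ENNReal.ofReal (1/2) * volume K := by
        rw [e1, e2, ← add_mul, ← ENNReal.ofReal_add (by norm_num) (by norm_num)]
        norm_num
  by_contra hne
  have hlt : ENNReal.ofReal (1/2) * volume K < 1 * volume K := by
    apply ENNReal.mul_lt_mul_left hne hfin.ne
    rw [← ENNReal.ofReal_one]
    exact (ENNReal.ofReal_lt_ofReal_iff (by norm_num)).2 (by norm_num)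
  rw [one_mul] at hlt
  exact absurd hle (not_le.2 hlt)

theorem cantor_bdd (f : ℕ → Bool) : cantorFunction (1/4 : ℝ) f ∈ Set.Icc (0:ℝ) (4/3) := by
  have h1 : cantorFunction (1/4 : ℝ) f ≤ cantorFunction (1/4 : ℝ) (fun _ => true) :=
    cantorFunction_le (by norm_num) (by norm_num) (by intro n _; rfl)
  have h2 : cantorFunction (1/4 : ℝ) (fun _ => false) ≤ cantorFunction (1/4 : ℝ) f :=
    cantorFunction_le (by norm_num) (by norm_num) (by intro n h; simp at h)
  have h3 : cantorFunction (1/4 : ℝ) (fun _ => true) = 4/3 := by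
    have := cantorFunction_succ (c := 1/4) (fun _ => true) (by norm_num) (by norm_num)
    simp at this
    linarith
  have h4 : cantorFunction (1/4 : ℝ) (fun _ => false) = 0 := by
    have := cantorFunction_succ (c := 1/4) (fun _ => false) (by norm_num) (by norm_num)
    simp at this
    linarith
  constructor <;> linarith

theorem image_null {K : Set ℝ} (hK0 : volume K = 0) :
    volume (((↑) : ℝ → UnitAddCircle) '' K) = 0 := by
  set K' : Set ℝ := toMeasurable volume K with hK'
  have hK'0 : volume K' = 0 := by rw [hK', measure_toMeasurable, hK0]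
  have hK'm : MeasurableSet K' := measurableSet_toMeasurable _ _
  have hsub : ((↑) : ℝ → UnitAddCircle) '' K ⊆ ((↑) : ℝ → UnitAddCircle) '' K' :=
    Set.image_mono (subset_toMeasurable _ _)
  refine measure_mono_null hsub ?_
  have hpre : ((↑) : ℝ → UnitAddCircle) ⁻¹' (((↑) : ℝ → UnitAddCircle) '' K') =
      ⋃ n : ℤ, (fun x : ℝ => x + n) ⁻¹' K' := by
    ext x
    simp only [Set.mem_preimage, Set.mem_image, Set.mem_iUnion]
    constructor
    · rintro ⟨y, hy, hxy⟩
      have : ((y - x : ℝ) : UnitAddCircle) = 0 := by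
        rw [AddCircle.coe_sub, hxy, sub_self]
      rw [AddCircle.coe_eq_zero_iff] at this
      obtain ⟨n, hn⟩ := this
      refine ⟨n, ?_⟩
      have : x + n = y := by
        simp at hn
        linarith
      rwa [this]
    · rintro ⟨n, hn⟩
      refine ⟨_, hn, ?_⟩
      have : ((n : ℝ) : UnitAddCircle) = 0 := by
        rw [AddCircle.coe_eq_zero_iff]
        exact ⟨n, by simp⟩
      rw [AddCircle.coe_add, this, add_zero]
  have hm : MeasurableSet (((↑) : ℝ → UnitAddCircle) ⁻¹' (((↑) : ℝ → UnitAddCircle) '' K')) := by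
    rw [hpre]
    exact MeasurableSet.iUnion fun n => (measurable_add_const (n:ℝ)) hK'm
  have hm2 : MeasurableSet (((↑) : ℝ → UnitAddCircle) '' K') := hm
  have h0 := (AddCircle.measurePreserving_mk 1 0).measure_preimage hm2.nullMeasurableSet
  rw [← h0, hpre]
  refine le_antisymm ?_ (zero_le)
  refine (Measure.restrict_apply_le _ _).trans ?_
  rw [nonpos_iff_eq_zero, measure_iUnion_null_iff]
  intro n
  have := (measure_preimage_add_right volume (n:ℝ) K')
  rw [this, hK'0]

/-- a null set in the circle of cardinality continuum -/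
theorem exists_null_circle : ∃ M : Set UnitAddCircle, volume M = 0 ∧ #M = 𝔠 := by
  set K : Set ℝ := (fun x : ℝ => (1/2 : ℝ) * x) '' Set.range (cantorFunction (1/4 : ℝ)) with hK
  have hK0 : volume K = 0 := by
    have := Measure.addHaar_smul (volume : Measure ℝ) (1/2 : ℝ) (Set.range (cantorFunction (1/4 : ℝ)))
    rw [cantor_null, mul_zero] at this
    exact this
  refine ⟨((↑) : ℝ → UnitAddCircle) '' K, image_null hK0, ?_⟩
  apply le_antisymm
  · refine Cardinal.mk_image_le.trans ?_
    refine (Cardinal.mk_set_le K).trans ?_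
    rw [Cardinal.mk_real]
  · have : #(ℕ → Bool) = 𝔠 := by simp
    rw [← this]
    refine Cardinal.mk_le_of_injective (f := fun b => ⟨(((1/2 : ℝ) * cantorFunction (1/4:ℝ) b : ℝ) : UnitAddCircle), ⟨_, ⟨_, ⟨b, rfl⟩, rfl⟩, rfl⟩⟩) ?_
    intro b b' hbb
    have h1 := Subtype.ext_iff.1 hbb
    simp only at h1
    have : Fact ((0:ℝ) < 1) := ⟨one_pos⟩
    rw [AddCircle.coe_eq_coe_iff_of_mem_Ico (p := (1:ℝ)) (a := 0)] at h1
    · apply Cardinal.cantorFunction_injective (c := 1/4) (by norm_num) (by norm_num)
      linarith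
    · have := cantor_bdd b
      constructor
      · linarith [this.1]
      · linarith [this.2]
    · have := cantor_bdd b'
      constructor
      · linarith [this.1]
      · linarith [this.2]

end Pool.Agent.Lib_MP_83934b_an
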