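import Mathlib
import Pool.Agent.Lib_MP_83934b_an.Null
import Pool.Agent.Lib_MP_83934b_an.Base

/-! Piecewise isometric permutations are local isometries outside a finite set, they form a group and
they lie in `Ĝ`. -/

open MeasureTheory Set Filter Topology Cardinal

namespace Pool.Agent.Lib_MP_83934b_an

/-- Local form of `IsPiecewiseIsometric` (see `isPiecewiseIsometric_iff`): outside a finite set the
permutation is locally of the form `y ↦ y + c` or `y ↦ -y + c`. -/
def LocIso (f : Equiv.Perm S) : Prop :=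
  ∃ F : Finset S, ∀ x ∉ F, ∃ c : S, (∀ᶠ y in 𝓝 x, f y = y + c) ∨ (∀ᶠ y in 𝓝 x, f y = -y + c)

theorem not_double_const {x d : S} (h : ∀ᶠ y in 𝓝 x, y + y = d) : False := by
  have hc : Tendsto (fun e : ℝ => x + (e : S)) (𝓝 0) (𝓝 x) := by
    have : Continuous (fun e : ℝ => x + (e : S)) := by
      exact continuous_const.add (AddCircle.continuous_mk' 1)
    have h2 := this.tendsto 0
    simpa using h2
  have h1 := hc.eventually h
  have h0 : x + x = d := h.self_of_nhds
  rw [Metric.eventually_nhds_iff] at h1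
  obtain ⟨δ, hδ, h1⟩ := h1
  set e : ℝ := min (δ/2) (1/4) with he
  have hepos : 0 < e := by positivity
  have h3 := @h1 e (by
    rw [dist_zero_right, Real.norm_eq_abs, abs_of_pos hepos]
    exact lt_of_le_of_lt (min_le_left _ _) (by linarith))
  have h4 : ((e + e : ℝ) : S) = 0 := by
    rw [AddCircle.coe_add]
    have : x + (e : S) + (x + (e : S)) = (x + x) + ((e : S) + (e : S)) := by abel
    rw [this, h0] at h3
    simpa using h3
  rw [AddCircle.coe_eq_zero_iff] at h4
  obtain ⟨n, hn⟩ := h4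
  simp only [zsmul_eq_mul, mul_one] at hn
  have he4 : e ≤ 1/4 := min_le_right _ _
  have hn0 : (0:ℝ) < n := by rw [hn]; linarith
  have hn1 : (n:ℝ) < 1 := by rw [hn]; linarith
  have hn0' : 0 < n := by exact_mod_cast hn0
  have hn1' : n < 1 := by exact_mod_cast hn1
  omega

theorem isPiecewiseIsometric_iff (f : Equiv.Perm S) : IsPiecewiseIsometric f ↔ LocIso f := by
  constructor
  · rintro ⟨F, hF⟩
    refine ⟨F, fun x hx => ?_⟩
    obtain ⟨t, rfl⟩ := QuotientAddGroup.mk_surjective x
    have hop : IsOpen ((F : Set S)ᶜ) := F.finite_toSet.isClosed.isOpen_compl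
    have hcont : Continuous ((↑) : ℝ → S) := AddCircle.continuous_mk' 1
    have hpre : ((↑) : ℝ → S) ⁻¹' ((F : Set S)ᶜ) ∈ 𝓝 t :=
      hcont.continuousAt.preimage_mem_nhds (hop.mem_nhds (by simpa using hx))
    rw [Metric.mem_nhds_iff] at hpre
    obtain ⟨δ, hδ, hball⟩ := hpre
    have hI : IsConnected (((↑) : ℝ → S) '' Metric.ball t δ) := by
      refine IsConnected.image ?_ _ hcont.continuousOn
      rw [Real.ball_eq_Ioo]
      exact isConnected_Ioo (by linarith)
    have hdisj : Disjoint (((↑) : ℝ → S) '' Metric.ball t δ) (F : Set S) := by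
      rw [Set.disjoint_left]
      rintro _ ⟨y, hy, rfl⟩ hyF
      exact hball hy hyF
    have hopen : IsOpen (((↑) : ℝ → S) '' Metric.ball t δ) :=
      QuotientAddGroup.isOpenMap_coe _ Metric.isOpen_ball
    have hnhds : (((↑) : ℝ → S) '' Metric.ball t δ) ∈ 𝓝 ((t : ℝ) : S) :=
      hopen.mem_nhds ⟨t, Metric.mem_ball_self hδ, rfl⟩
    obtain ⟨c, hc⟩ := hF _ hI hdisj
    refine ⟨c, ?_⟩
    rcases hc with hc | hc
    · left
      exact Filter.eventually_of_mem hnhds hc
    · right
      exact Filter.eventually_of_mem hnhds hc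
  · rintro ⟨F, hF⟩
    refine ⟨F, fun I hI hdisj => ?_⟩
    have hAo : IsOpen {x : S | ∃ c, ∀ᶠ y in 𝓝 x, f y = y + c} := by
      rw [isOpen_iff_mem_nhds]
      rintro x ⟨c, hc⟩
      filter_upwards [eventually_eventually_nhds.2 hc] with y hy
      exact ⟨c, hy⟩
    have hBo : IsOpen {x : S | ∃ c, ∀ᶠ y in 𝓝 x, f y = -y + c} := by
      rw [isOpen_iff_mem_nhds]
      rintro x ⟨c, hc⟩
      filter_upwards [eventually_eventually_nhds.2 hc] with y hy
      exact ⟨c, hy⟩
    have hAB : Disjoint {x : S | ∃ c, ∀ᶠ y in 𝓝 x, f y = y + c} {x : S | ∃ c, ∀ᶠ y in 𝓝 x, f y = -y + c} := by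
      rw [Set.disjoint_left]
      rintro x ⟨c, hc⟩ ⟨d, hd⟩
      apply not_double_const (x := x) (d := d - c)
      filter_upwards [hc, hd] with y h1 h2
      rw [h1] at h2
      have : y + y = (y + c) + y - c := by abel
      rw [this, h2]
      abel
    have hsub : I ⊆ {x : S | ∃ c, ∀ᶠ y in 𝓝 x, f y = y + c} ∪ {x : S | ∃ c, ∀ᶠ y in 𝓝 x, f y = -y + c} := by
      intro x hx
      have hxF : x ∉ F := fun h => Set.disjoint_left.1 hdisj hx h
      obtain ⟨c, hc | hc⟩ := hF x hxF
      · exact Or.inl ⟨c, hc⟩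
      · exact Or.inr ⟨c, hc⟩
    obtain ⟨x0, hx0⟩ := hI.nonempty
    rcases hI.isPreconnected.subset_or_subset hAo hBo hAB hsub with hIA | hIB
    · refine ⟨f x0 - x0, Or.inl ?_⟩
      have hU : IsOpen {x : S | ∃ c, c = f x0 - x0 ∧ ∀ᶠ y in 𝓝 x, f y = y + c} := by
        rw [isOpen_iff_mem_nhds]
        rintro x ⟨c, hc0, hc⟩
        filter_upwards [eventually_eventually_nhds.2 hc] with y hy
        exact ⟨c, hc0, hy⟩
      have hV : IsOpen {x : S | ∃ c, c ≠ f x0 - x0 ∧ ∀ᶠ y in 𝓝 x, f y = y + c} := by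
        rw [isOpen_iff_mem_nhds]
        rintro x ⟨c, hc0, hc⟩
        filter_upwards [eventually_eventually_nhds.2 hc] with y hy
        exact ⟨c, hc0, hy⟩
      have hUV : Disjoint {x : S | ∃ c, c = f x0 - x0 ∧ ∀ᶠ y in 𝓝 x, f y = y + c}
          {x : S | ∃ c, c ≠ f x0 - x0 ∧ ∀ᶠ y in 𝓝 x, f y = y + c} := by
        rw [Set.disjoint_left]
        rintro x ⟨c, hc0, hc⟩ ⟨d, hd0, hd⟩
        have h1 := hc.self_of_nhds
        have h2 := hd.self_of_nhds
        rw [h1] at h2
        exact hd0 (by rw [← hc0]; exact (add_left_cancel h2).symm)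
      have hsub2 : I ⊆ {x : S | ∃ c, c = f x0 - x0 ∧ ∀ᶠ y in 𝓝 x, f y = y + c} ∪
          {x : S | ∃ c, c ≠ f x0 - x0 ∧ ∀ᶠ y in 𝓝 x, f y = y + c} := by
        intro x hx
        obtain ⟨c, hc⟩ := hIA hx
        by_cases h : c = f x0 - x0
        · exact Or.inl ⟨c, h, hc⟩
        · exact Or.inr ⟨c, h, hc⟩
      have hne : (I ∩ {x : S | ∃ c, c = f x0 - x0 ∧ ∀ᶠ y in 𝓝 x, f y = y + c}).Nonempty := by
        refine ⟨x0, hx0, ?_⟩
        obtain ⟨c, hc⟩ := hIA hx0
        refine ⟨c, ?_, hc⟩
        rw [hc.self_of_nhds]; abel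
      have := hI.isPreconnected.subset_left_of_subset_union hU hV hUV hsub2 hne
      intro x hx
      obtain ⟨c, hc0, hc⟩ := this hx
      rw [hc.self_of_nhds, hc0]
    · refine ⟨f x0 + x0, Or.inr ?_⟩
      have hU : IsOpen {x : S | ∃ c, c = f x0 + x0 ∧ ∀ᶠ y in 𝓝 x, f y = -y + c} := by
        rw [isOpen_iff_mem_nhds]
        rintro x ⟨c, hc0, hc⟩
        filter_upwards [eventually_eventually_nhds.2 hc] with y hy
        exact ⟨c, hc0, hy⟩
      have hV : IsOpen {x : S | ∃ c, c ≠ f x0 + x0 ∧ ∀ᶠ y in 𝓝 x, f y = -y + c} := by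
        rw [isOpen_iff_mem_nhds]
        rintro x ⟨c, hc0, hc⟩
        filter_upwards [eventually_eventually_nhds.2 hc] with y hy
        exact ⟨c, hc0, hy⟩
      have hUV : Disjoint {x : S | ∃ c, c = f x0 + x0 ∧ ∀ᶠ y in 𝓝 x, f y = -y + c}
          {x : S | ∃ c, c ≠ f x0 + x0 ∧ ∀ᶠ y in 𝓝 x, f y = -y + c} := by
        rw [Set.disjoint_left]
        rintro x ⟨c, hc0, hc⟩ ⟨d, hd0, hd⟩
        have h1 := hc.self_of_nhds
        have h2 := hd.self_of_nhds
        rw [h1] at h2
        exact hd0 (by rw [← hc0]; exact (add_left_cancel h2).symm)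
      have hsub2 : I ⊆ {x : S | ∃ c, c = f x0 + x0 ∧ ∀ᶠ y in 𝓝 x, f y = -y + c} ∪
          {x : S | ∃ c, c ≠ f x0 + x0 ∧ ∀ᶠ y in 𝓝 x, f y = -y + c} := by
        intro x hx
        obtain ⟨c, hc⟩ := hIB hx
        by_cases h : c = f x0 + x0
        · exact Or.inl ⟨c, h, hc⟩
        · exact Or.inr ⟨c, h, hc⟩
      have hne : (I ∩ {x : S | ∃ c, c = f x0 + x0 ∧ ∀ᶠ y in 𝓝 x, f y = -y + c}).Nonempty := by
        refine ⟨x0, hx0, ?_⟩
        obtain ⟨c, hc⟩ := hIB hx0
        refine ⟨c, ?_, hc⟩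
        rw [hc.self_of_nhds]; abel
      have := hI.isPreconnected.subset_left_of_subset_union hU hV hUV hsub2 hne
      intro x hx
      obtain ⟨c, hc0, hc⟩ := this hx
      rw [hc.self_of_nhds, hc0]

theorem LocIso.mul {f g : Equiv.Perm S} (hf : LocIso f) (hg : LocIso g) : LocIso (f * g) := by
  classical
  obtain ⟨F, hF⟩ := hf
  obtain ⟨F', hF'⟩ := hg
  refine ⟨F' ∪ F.image g.symm, fun x hx => ?_⟩
  rw [Finset.mem_union, not_or] at hx
  obtain ⟨hx1, hx2⟩ := hx
  have hgx : g x ∉ F := by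
    intro h
    apply hx2
    rw [Finset.mem_image]
    exact ⟨g x, h, by simp⟩
  obtain ⟨c, hc⟩ := hF' x hx1
  obtain ⟨c', hc'⟩ := hF (g x) hgx
  rcases hc with hc | hc
  · have hcont : Tendsto (fun y : S => y + c) (𝓝 x) (𝓝 (g x)) := by
      rw [hc.self_of_nhds]
      exact (continuous_id.add continuous_const).tendsto x
    rcases hc' with hc' | hc'
    · refine ⟨c + c', Or.inl ?_⟩
      filter_upwards [hc, hcont.eventually hc'] with y h1 h2
      rw [Equiv.Perm.mul_apply, h1, h2, add_assoc]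
    · refine ⟨-c + c', Or.inr ?_⟩
      filter_upwards [hc, hcont.eventually hc'] with y h1 h2
      rw [Equiv.Perm.mul_apply, h1, h2]
      abel
  · have hcont : Tendsto (fun y : S => -y + c) (𝓝 x) (𝓝 (g x)) := by
      rw [hc.self_of_nhds]
      exact (continuous_neg.add continuous_const).tendsto x
    rcases hc' with hc' | hc'
    · refine ⟨c + c', Or.inr ?_⟩
      filter_upwards [hc, hcont.eventually hc'] with y h1 h2
      rw [Equiv.Perm.mul_apply, h1, h2, add_assoc]
    · refine ⟨-c + c', Or.inl ?_⟩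
      filter_upwards [hc, hcont.eventually hc'] with y h1 h2
      rw [Equiv.Perm.mul_apply, h1, h2]
      abel

theorem LocIso.one : LocIso 1 :=
  ⟨∅, fun x _ => ⟨0, Or.inl (Eventually.of_forall fun y => by simp)⟩⟩

theorem LocIso.inv {f : Equiv.Perm S} (hf : LocIso f) : LocIso f⁻¹ := by
  classical
  obtain ⟨F, hF⟩ := hf
  refine ⟨F.image f, fun x hx => ?_⟩
  have hgx : f.symm x ∉ F := by
    intro h
    apply hx
    rw [Finset.mem_image]
    exact ⟨_, h, by simp⟩
  obtain ⟨c, hc⟩ := hF _ hgx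
  rcases hc with hc | hc
  · have h0 := hc.self_of_nhds
    rw [Equiv.apply_symm_apply] at h0
    have hcont : Tendsto (fun y : S => y - c) (𝓝 x) (𝓝 (f.symm x)) := by
      have : f.symm x = x - c := by rw [eq_sub_iff_add_eq]; exact h0.symm
      rw [this]
      exact (continuous_id.sub continuous_const).tendsto x
    refine ⟨-c, Or.inl ?_⟩
    filter_upwards [hcont.eventually hc] with y h1
    have h2 : f (y - c) = y := by rw [h1]; abel
    have : f⁻¹ y = y - c := by
      rw [Equiv.Perm.inv_eq_iff_eq, h2]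
    rw [this]; abel
  · have h0 := hc.self_of_nhds
    rw [Equiv.apply_symm_apply] at h0
    have hcont : Tendsto (fun y : S => -y + c) (𝓝 x) (𝓝 (f.symm x)) := by
      have : f.symm x = -x + c := by
        have : x + f.symm x = c := by
          nth_rewrite 1 [h0]; abel
        rw [← this]; abel
      rw [this]
      exact (continuous_neg.add continuous_const).tendsto x
    refine ⟨c, Or.inr ?_⟩
    filter_upwards [hcont.eventually hc] with y h1
    have h2 : f (-y + c) = y := by rw [h1]; abel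
    rw [Equiv.Perm.inv_eq_iff_eq, h2]

theorem nullSingleton : NullSingletonClass (volume : Measure S) := by
  refine ⟨fun x => ?_⟩
  obtain ⟨t, rfl⟩ := QuotientAddGroup.mk_surjective x
  have := image_null (K := {t}) (by simp)
  rw [Set.image_singleton] at this
  exact this

theorem locIso_null {f : Equiv.Perm S} (hf : LocIso f) :
    (∀ A : Set S, NullMeasurableSet A volume → NullMeasurableSet (f ⁻¹' A) volume) ∧
    (∀ A : Set S, NullMeasurableSet A volume → volume (f ⁻¹' A) = volume A) := by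
  classical
  have hns := nullSingleton
  obtain ⟨F, hF⟩ := hf
  -- local charts
  have hch : ∀ x : ((F : Set S)ᶜ : Set S), ∃ (U : Set S) (T : S ≃ᵐ S), IsOpen U ∧ (x : S) ∈ U ∧
      MeasurePreserving T volume volume ∧ ∀ y ∈ U, f y = T y := by
    rintro ⟨x, hx⟩
    obtain ⟨c, hc | hc⟩ := hF x (by simpa using hx)
    · obtain ⟨U, hU, hUo, hxU⟩ := eventually_nhds_iff.1 hc
      exact ⟨U, MeasurableEquiv.addRight c, hUo, hxU, measurePreserving_add_right volume c, hU⟩
    · obtain ⟨U, hU, hUo, hxU⟩ := eventually_nhds_iff.1 hc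
      refine ⟨U, (MeasurableEquiv.neg S).trans (MeasurableEquiv.addRight c), hUo, hxU, ?_, hU⟩
      exact (measurePreserving_add_right volume c).comp (Measure.measurePreserving_neg volume)
  choose U T hUo hxU hT hfU using hch
  have hcov : ((F : Set S)ᶜ) ⊆ ⋃ x, U x := fun x hx => Set.mem_iUnion.2 ⟨⟨x, hx⟩, hxU ⟨x, hx⟩⟩
  obtain ⟨I, hIc, hIU⟩ := TopologicalSpace.isOpen_iUnion_countable U hUo
  rw [← hIU] at hcov
  by_cases hIe : I = ∅
  · exfalso
    rw [hIe] at hcov
    simp only [mem_empty_iff_false, iUnion_of_empty, iUnion_empty] at hcov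
    have h1 : (Set.univ : Set S) ⊆ (F : Set S) := by
      intro x _
      by_contra hx
      exact hcov hx
    have h2 : (Set.univ : Set S).Finite := (Finset.finite_toSet F).subset h1
    have h3 : volume (Set.univ : Set S) = 0 := h2.measure_zero _
    rw [AddCircle.measure_univ] at h3
    simp at h3
  obtain ⟨e, he⟩ := hIc.exists_eq_range (Set.nonempty_iff_ne_empty.2 hIe)
  set P : ℕ → Set S := fun n => disjointed (fun n => U (e n)) n \ (F : Set S) with hP
  have hPm : ∀ n, MeasurableSet (P n) := fun n =>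
    (MeasurableSet.disjointed (fun n => (hUo (e n)).measurableSet) n).diff
      (Finset.finite_toSet F).measurableSet
  have hPsub : ∀ n, P n ⊆ U (e n) := fun n x hx => disjointed_subset (fun n => U (e n)) n hx.1
  have hPd : Pairwise (Function.onFun Disjoint P) := fun i j hij =>
    (disjoint_disjointed (fun n => U (e n)) hij).mono Set.sdiff_subset Set.sdiff_subset
  have hPU : (⋃ n, P n) = (F : Set S)ᶜ := by
    ext x
    simp only [hP, Set.mem_iUnion, Set.mem_sdiff, Set.mem_compl_iff]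
    constructor
    · rintro ⟨n, _, hx⟩
      exact hx
    · intro hx
      have h1 : x ∈ ⋃ n, disjointed (fun n => U (e n)) n := by
        rw [iUnion_disjointed]
        have := hcov hx
        rw [he] at this
        simpa using this
      rw [Set.mem_iUnion] at h1
      obtain ⟨n, hn⟩ := h1
      exact ⟨n, hn, hx⟩
  have hfP : ∀ n, ∀ y ∈ P n, f y = T (e n) y := fun n y hy => hfU _ y (hPsub n hy)
  have hpre : ∀ (A : Set S) (n : ℕ), f ⁻¹' A ∩ P n = (T (e n)) ⁻¹' A ∩ P n := by
    intro A n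
    ext y
    constructor
    · rintro ⟨h1, h2⟩
      exact ⟨by rw [Set.mem_preimage, ← hfP n y h2]; exact h1, h2⟩
    · rintro ⟨h1, h2⟩
      exact ⟨by rw [Set.mem_preimage, hfP n y h2]; exact h1, h2⟩
  have hdec : ∀ (A : Set S), f ⁻¹' A = (⋃ n, f ⁻¹' A ∩ P n) ∪ (f ⁻¹' A ∩ F) := by
    intro A
    rw [← Set.inter_iUnion, hPU, ← Set.inter_union_distrib_left, Set.compl_union_self, Set.inter_univ]
  have hnm : ∀ (A : Set S) (n : ℕ), NullMeasurableSet A volume → NullMeasurableSet (f ⁻¹' A ∩ P n) volume := by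
    intro A n hA
    rw [hpre]
    exact (hA.preimage (hT (e n)).quasiMeasurePreserving).inter (hPm n).nullMeasurableSet
  refine ⟨fun A hA => ?_, fun A hA => ?_⟩
  · rw [hdec]
    refine (NullMeasurableSet.iUnion fun n => hnm A n hA).union ?_
    exact NullMeasurableSet.of_null (((Finset.finite_toSet F).subset Set.inter_subset_right).measure_zero _)
  · have h1 : volume (f ⁻¹' A) = ∑' n, volume (f ⁻¹' A ∩ P n) := by
      have hae : (f ⁻¹' A : Set S) =ᵐ[volume] (⋃ n, f ⁻¹' A ∩ P n : Set S) := by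
        have h0 : ∀ᵐ x ∂(volume : Measure S), x ∉ (F : Set S) :=
          measure_eq_zero_iff_ae_notMem.1 ((Finset.finite_toSet F).measure_zero _)
        filter_upwards [h0] with x hx
        rw [eq_iff_iff]
        show x ∈ f ⁻¹' A ↔ x ∈ ⋃ n, f ⁻¹' A ∩ P n
        rw [← Set.inter_iUnion, hPU]
        exact ⟨fun h => ⟨h, hx⟩, fun h => h.1⟩
      rw [measure_congr hae]
      refine measure_iUnion₀ ?_ (fun n => hnm A n hA)
      intro i j hij
      exact ((hPd hij).mono Set.inter_subset_right Set.inter_subset_right).aedisjoint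
    have himg : ∀ n, f '' (P n) = (T (e n)).symm ⁻¹' (P n) := by
      intro n
      rw [Set.image_congr (hfP n)]
      exact (T (e n)).image_eq_preimage_symm (P n)
    have himgm : ∀ n, MeasurableSet (f '' (P n)) := by
      intro n
      rw [himg]
      exact (T (e n)).symm.measurable (hPm n)
    have h2 : volume A = ∑' n, volume (A ∩ f '' (P n)) := by
      have hae : (A : Set S) =ᵐ[volume] (⋃ n, A ∩ f '' (P n) : Set S) := by
        have h0 : ∀ᵐ x ∂(volume : Measure S), x ∉ f '' (F : Set S) :=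
          measure_eq_zero_iff_ae_notMem.1 (((Finset.finite_toSet F).image f).measure_zero _)
        filter_upwards [h0] with x hx
        rw [eq_iff_iff]
        show x ∈ A ↔ x ∈ ⋃ n, A ∩ f '' (P n)
        rw [← Set.inter_iUnion, ← Set.image_iUnion, hPU, Set.image_compl_eq f.bijective]
        exact ⟨fun h => ⟨h, hx⟩, fun h => h.1⟩
      conv_lhs => rw [measure_congr hae]
      refine measure_iUnion₀ ?_ (fun n => hA.inter (himgm n).nullMeasurableSet)
      intro i j hij
      refine (Disjoint.mono Set.inter_subset_right Set.inter_subset_right ?_).aedisjoint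
      exact (Set.disjoint_image_iff f.injective).2 (hPd hij)
    rw [h1, h2]
    congr 1
    ext n
    rw [← (hT (e n)).measure_preimage (hA.inter (himgm n).nullMeasurableSet), hpre]
    congr 1
    rw [Set.preimage_inter]
    congr 1
    rw [himg]
    ext y
    simp

theorem LocIso.mem_Ghat {f : Equiv.Perm S} (hf : LocIso f) : f ∈ Ghat :=
  ⟨(locIso_null hf).1, (locIso_null hf.inv).1, (locIso_null hf).2⟩

end Pool.Agent.Lib_MP_83934b_an
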