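import Mathlib
import Pool.Agent.Lib_MP_83934b_an.Loc

/-! The group `IET^⋈` as a subgroup of `G`. -/

open MeasureTheory Set Filter Topology Cardinal

namespace Pool.Agent.Lib_MP_83934b_an

/-- Every piecewise isometric permutation lies in `Ĝ`. -/
theorem IsPiecewiseIsometric.mem_Ghat {f : Equiv.Perm S} (hf : IsPiecewiseIsometric f) :
    f ∈ Ghat :=
  ((isPiecewiseIsometric_iff f).1 hf).mem_Ghat

/-- `g ∈ G` is the class of a piecewise isometric permutation. -/
def IsFlipExchange (g : G) : Prop :=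
  ∃ (f : Equiv.Perm S) (hf : IsPiecewiseIsometric f), p ⟨f, hf.mem_Ghat⟩ = g

theorem IsFlipExchange.mul {a b : G} (ha : IsFlipExchange a) (hb : IsFlipExchange b) :
    IsFlipExchange (a * b) := by
  obtain ⟨f, hf, rfl⟩ := ha
  obtain ⟨g, hg, rfl⟩ := hb
  have h : IsPiecewiseIsometric (f * g) := (isPiecewiseIsometric_iff _).2
    (((isPiecewiseIsometric_iff _).1 hf).mul ((isPiecewiseIsometric_iff _).1 hg))
  exact ⟨f * g, h, map_mul p ⟨f, hf.mem_Ghat⟩ ⟨g, hg.mem_Ghat⟩⟩

theorem IsFlipExchange.one : IsFlipExchange 1 :=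
  ⟨1, (isPiecewiseIsometric_iff _).2 LocIso.one, map_one p⟩

theorem IsFlipExchange.inv {a : G} (ha : IsFlipExchange a) : IsFlipExchange a⁻¹ := by
  obtain ⟨f, hf, rfl⟩ := ha
  have h : IsPiecewiseIsometric f⁻¹ := (isPiecewiseIsometric_iff _).2
    (((isPiecewiseIsometric_iff _).1 hf).inv)
  exact ⟨f⁻¹, h, map_inv p ⟨f, hf.mem_Ghat⟩⟩

/-- `IET^⋈`, the group of interval exchanges with flips, as a subgroup of `G`: the classes
`p f` of all the piecewise isometric permutations `f` of the circle. -/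
def IETflip : Subgroup G where
  carrier := {g | IsFlipExchange g}
  mul_mem' := IsFlipExchange.mul
  one_mem' := IsFlipExchange.one
  inv_mem' := IsFlipExchange.inv

end Pool.Agent.Lib_MP_83934b_an
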