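import Mathlib
import Pool.Agent.Lib_MP_83934b_an.Flip

/-! The coset space, its embedding of the circle, and the transport of the action. -/

open MeasureTheory Set Filter Topology Cardinal

namespace Pool.Agent.Lib_MP_83934b_an

theorem p_eq_iff (f g : Ghat) : p f = p g ↔
    ∀ᵐ x ∂(volume : Measure S), (f : Equiv.Perm S) x = (g : Equiv.Perm S) x := by
  have h1 : p f = p g ↔ f⁻¹ * g ∈ N := by
    show (QuotientGroup.mk f : Ghat ⧸ N) = QuotientGroup.mk g ↔ _
    rw [QuotientGroup.eq]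
  have h2 : f⁻¹ * g ∈ N ↔ ∀ᵐ x ∂(volume : Measure S), ((f⁻¹ * g : Ghat) : Equiv.Perm S) x = x := Iff.rfl
  rw [h1, h2]
  constructor
  · intro h
    filter_upwards [h] with x hx
    rw [Subgroup.coe_mul, Equiv.Perm.mul_apply, Subgroup.coe_inv, Equiv.Perm.inv_eq_iff_eq] at hx
    exact hx.symm
  · intro h
    filter_upwards [h] with x hx
    rw [Subgroup.coe_mul, Equiv.Perm.mul_apply, Subgroup.coe_inv, Equiv.Perm.inv_eq_iff_eq]
    exact hx.symm

/-- the rotation `y ↦ y + x` -/
def rot (x : S) : Ghat := ⟨Equiv.addRight x, by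
  have key : ∀ z : S, (∀ A : Set S, NullMeasurableSet A volume →
      NullMeasurableSet ((fun y : S => y + z) ⁻¹' A) volume) := fun z A hA =>
    hA.preimage (measurePreserving_add_right volume z).quasiMeasurePreserving
  refine ⟨fun A hA => ?_, fun A hA => ?_, fun A hA => ?_⟩
  · exact key x A hA
  · have : ⇑(Equiv.addRight x).symm = fun y : S => y + -x := by
      ext y; simp
    rw [this]
    exact key (-x) A hA
  · exact (measurePreserving_add_right volume x).measure_preimage hA⟩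

@[simp] theorem rot_apply (x y : S) : (rot x : Equiv.Perm S) y = y + x := rfl

theorem rot_inv_apply (x y : S) : ((rot x)⁻¹ : Equiv.Perm S) y = y - x := by
  rw [Equiv.Perm.inv_eq_iff_eq, rot_apply]; abel

theorem rot_locIso (x : S) : LocIso (rot x : Equiv.Perm S) :=
  ⟨∅, fun _ _ => ⟨x, Or.inl (Eventually.of_forall fun _ => rfl)⟩⟩

/-- The stabiliser of the two-sided germ at zero: the classes of piecewise isometric permutations
that are `y ↦ y` or `y ↦ -y` near `0`. -/
def Lam : Subgroup IETflip where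
  carrier := {g | ∃ f : Ghat, LocIso (f : Equiv.Perm S) ∧ p f = g ∧
    ((∀ᶠ y in 𝓝 (0 : S), (f : Equiv.Perm S) y = y) ∨ (∀ᶠ y in 𝓝 (0 : S), (f : Equiv.Perm S) y = -y))}
  mul_mem' := by
    rintro a b ⟨f, hf, hfa, hf0⟩ ⟨g, hg, hgb, hg0⟩
    refine ⟨f * g, hf.mul hg, by rw [map_mul, hfa, hgb, Subgroup.coe_mul], ?_⟩
    have hneg : Tendsto (fun y : S => -y) (𝓝 0) (𝓝 0) := by
      simpa using (continuous_neg (G := S)).tendsto 0
    rcases hf0 with hf0 | hf0 <;> rcases hg0 with hg0 | hg0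
    · left
      filter_upwards [hf0, hg0] with y h1 h2
      rw [Subgroup.coe_mul, Equiv.Perm.mul_apply, h2, h1]
    · right
      filter_upwards [hneg.eventually hf0, hg0] with y h1 h2
      rw [Subgroup.coe_mul, Equiv.Perm.mul_apply, h2, h1]
    · right
      filter_upwards [hf0, hg0] with y h1 h2
      rw [Subgroup.coe_mul, Equiv.Perm.mul_apply, h2, h1]
    · left
      filter_upwards [hneg.eventually hf0, hg0] with y h1 h2
      rw [Subgroup.coe_mul, Equiv.Perm.mul_apply, h2, h1, neg_neg]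
  one_mem' := ⟨1, LocIso.one, by rw [map_one, Subgroup.coe_one], Or.inl (by simp)⟩
  inv_mem' := by
    rintro a ⟨f, hf, hfa, hf0⟩
    refine ⟨f⁻¹, hf.inv, by rw [map_inv, hfa, Subgroup.coe_inv], ?_⟩
    have hneg : Tendsto (fun y : S => -y) (𝓝 0) (𝓝 0) := by
      simpa using (continuous_neg (G := S)).tendsto 0
    rcases hf0 with hf0 | hf0
    · left
      filter_upwards [hf0] with y h1
      rw [Subgroup.coe_inv, Equiv.Perm.inv_eq_iff_eq, h1]
    · right
      filter_upwards [hneg.eventually hf0] with y h1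
      rw [Subgroup.coe_inv, Equiv.Perm.inv_eq_iff_eq, h1, neg_neg]

/-- class of a locally isometric permutation in `IETflip` -/
def cls (f : Ghat) (hf : LocIso (f : Equiv.Perm S)) : IETflip :=
  ⟨p f, f, (isPiecewiseIsometric_iff _).2 hf, rfl⟩

/-- the embedding of the circle in the coset space -/
def emb (x : S) : IETflip ⧸ Lam := QuotientGroup.mk (cls (rot x) (rot_locIso x))

theorem smul_emb (g : IETflip) (f : Ghat) (hf : LocIso (f : Equiv.Perm S)) (hfg : p f = g) :
    ∃ F : Finset S, ∀ x ∉ F, g • emb x = emb ((f : Equiv.Perm S) x) := by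
  obtain ⟨F, hF⟩ := id hf
  refine ⟨F, fun x hx => ?_⟩
  unfold emb
  rw [MulAction.Quotient.smul_mk, eq_comm, QuotientGroup.eq]
  set fx : S := (f : Equiv.Perm S) x with hfx
  refine ⟨(rot fx)⁻¹ * (f * rot x), ((rot_locIso fx).inv).mul (hf.mul (rot_locIso x)), ?_, ?_⟩
  · rw [map_mul, map_mul, map_inv, hfg]
    rfl
  · have hcont : Tendsto (fun y : S => y + x) (𝓝 0) (𝓝 x) := by
      have := (continuous_add_const x).tendsto (0 : S)
      simpa using this
    obtain ⟨c, hc | hc⟩ := hF x hx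
    · left
      have h0 := hc.self_of_nhds
      filter_upwards [hcont.eventually hc] with y h1
      rw [Subgroup.coe_mul, Subgroup.coe_mul, Equiv.Perm.mul_apply, Equiv.Perm.mul_apply, rot_apply, h1]
      rw [Subgroup.coe_inv, rot_inv_apply, hfx, h0]
      abel
    · right
      have h0 := hc.self_of_nhds
      filter_upwards [hcont.eventually hc] with y h1
      rw [Subgroup.coe_mul, Subgroup.coe_mul, Equiv.Perm.mul_apply, Equiv.Perm.mul_apply, rot_apply, h1]
      rw [Subgroup.coe_inv, rot_inv_apply, hfx, h0]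
      abel

theorem emb_injective : Function.Injective emb := by
  intro x y hxy
  unfold emb at hxy
  rw [QuotientGroup.eq] at hxy
  obtain ⟨f, hf, hfp, hf0⟩ := hxy
  have hfp' : p f = p ((rot x)⁻¹ * rot y) := by
    rw [hfp, map_mul, map_inv]; rfl
  rw [p_eq_iff] at hfp'
  have hae : ∀ᵐ z ∂(volume : Measure S), (f : Equiv.Perm S) z = z + y - x := by
    filter_upwards [hfp'] with z hz
    rw [hz, Subgroup.coe_mul, Equiv.Perm.mul_apply, rot_apply, Subgroup.coe_inv, rot_inv_apply]
  have hdense : Dense {z : S | (f : Equiv.Perm S) z = z + y - x} := Measure.dense_of_ae hae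
  rcases hf0 with hf0 | hf0
  · obtain ⟨U, hU, hUo, hU0⟩ := eventually_nhds_iff.1 hf0
    obtain ⟨z, hzU, hz⟩ := hdense.inter_open_nonempty U hUo ⟨0, hU0⟩
    have h1 := hU z hzU
    rw [Set.mem_ofPred_eq] at hz
    rw [hz] at h1
    have : y - x = 0 := by
      have h2 : z + y - x - z = 0 := by rw [h1]; simp
      rw [← h2]; abel
    exact (sub_eq_zero.1 this).symm
  · exfalso
    obtain ⟨U, hU, hUo, hU0⟩ := eventually_nhds_iff.1 hf0
    apply not_double_const (x := (0 : S)) (d := x - y)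
    have hcl : IsClosed {z : S | z + z = x - y} :=
      isClosed_eq (continuous_id.add continuous_id) continuous_const
    have hsub : U ⊆ {z : S | z + z = x - y} := by
      have h1 : U ⊆ closure (U ∩ {z : S | (f : Equiv.Perm S) z = z + y - x}) :=
        hdense.open_subset_closure_inter hUo
      refine h1.trans ?_
      rw [hcl.closure_subset_iff]
      rintro z ⟨hzU, hz⟩
      rw [Set.mem_ofPred_eq] at hz ⊢
      have h2 := hU z hzU
      rw [hz] at h2
      have : z + z = z + (z + y - x) - y + x := by abel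
      rw [this, h2]; abel
    exact Filter.eventually_of_mem (hUo.mem_nhds hU0) hsub

theorem LocIso.contAt {f : Equiv.Perm S} {F : Finset S}
    (hF : ∀ x ∉ F, ∃ c : S, (∀ᶠ y in 𝓝 x, f y = y + c) ∨ (∀ᶠ y in 𝓝 x, f y = -y + c))
    {x : S} (hx : x ∉ F) : ContinuousAt f x := by
  obtain ⟨c, hc | hc⟩ := hF x hx
  · have : ContinuousAt (fun y : S => y + c) x := (continuous_add_const c).continuousAt
    exact this.congr (by filter_upwards [hc] with y hy using hy.symm)
  · have : ContinuousAt (fun y : S => -y + c) x :=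
      (continuous_neg.add continuous_const).continuousAt
    exact this.congr (by filter_upwards [hc] with y hy using hy.symm)

theorem card_IET : #IETflip ≤ 𝔠 := by
  classical
  have hns := nullSingleton
  obtain ⟨D, hDc, hDd⟩ := TopologicalSpace.exists_countable_dense S
  have hrep : ∀ g : IETflip, ∃ f : Ghat, LocIso (f : Equiv.Perm S) ∧ p f = g := by
    rintro ⟨g, f, hf, hfg⟩
    exact ⟨⟨f, hf.mem_Ghat⟩, (isPiecewiseIsometric_iff _).1 hf, hfg⟩
  choose rep hrep1 hrep2 using hrep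
  have hinj : Function.Injective (fun g : IETflip => fun d : D => (rep g : Equiv.Perm S) (d : S)) := by
    intro g g' hgg
    apply Subtype.ext
    rw [← hrep2 g, ← hrep2 g', p_eq_iff]
    obtain ⟨F, hF⟩ := hrep1 g
    obtain ⟨F', hF'⟩ := hrep1 g'
    have hfin : volume ((F ∪ F' : Finset S) : Set S) = 0 := by
      exact Set.Finite.measure_zero (Finset.finite_toSet _) _
    have hae : ∀ᵐ x ∂(volume : Measure S), x ∉ ((F ∪ F' : Finset S) : Set S) :=
      measure_eq_zero_iff_ae_notMem.1 hfin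
    filter_upwards [hae] with x hx
    rw [Finset.mem_coe, Finset.mem_union, not_or] at hx
    have h1 : Tendsto (rep g : Equiv.Perm S) (𝓝[D] x) (𝓝 ((rep g : Equiv.Perm S) x)) :=
      (LocIso.contAt hF hx.1).tendsto.mono_left nhdsWithin_le_nhds
    have h2 : Tendsto (rep g' : Equiv.Perm S) (𝓝[D] x) (𝓝 ((rep g' : Equiv.Perm S) x)) :=
      (LocIso.contAt hF' hx.2).tendsto.mono_left nhdsWithin_le_nhds
    have : (𝓝[D] x).NeBot := mem_closure_iff_nhdsWithin_neBot.1 (hDd x)
    refine tendsto_nhds_unique h1 (h2.congr' ?_)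
    filter_upwards [self_mem_nhdsWithin] with y hy
    exact (congrFun hgg ⟨y, hy⟩).symm
  refine (Cardinal.mk_le_of_injective hinj).trans ?_
  rw [Cardinal.mk_pi, Cardinal.prod_const, Cardinal.lift_id, Cardinal.lift_id]
  have hS : #S ≤ 𝔠 := by
    rw [← Cardinal.mk_real]
    exact Cardinal.mk_le_of_surjective (QuotientAddGroup.mk_surjective (s := AddSubgroup.zmultiples (1:ℝ)))
  have hD : #D ≤ ℵ₀ := by
    rw [Cardinal.le_aleph0_iff_set_countable]
    exact hDc
  calc #S ^ #D ≤ 𝔠 ^ #D := Cardinal.power_le_power_right hS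
    _ ≤ 𝔠 ^ ℵ₀ := Cardinal.power_le_power_left Cardinal.continuum_ne_zero hD
    _ = 𝔠 := Cardinal.continuum_power_aleph0

theorem mem_Ghat_of_ae {h : Equiv.Perm S} (f : Ghat)
    (hae : ∀ᵐ x ∂(volume : Measure S), h x = (f : Equiv.Perm S) x) : h ∈ Ghat := by
  have hae' : ∀ᵐ x ∂(volume : Measure S), h.symm x = (f : Equiv.Perm S).symm x := by
    have h1 := ae_comp f⁻¹ (P := fun x => h x = (f : Equiv.Perm S) x) hae
    filter_upwards [h1] with x hx
    rw [Subgroup.coe_inv] at hx
    rw [Equiv.symm_apply_eq]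
    have e : (f : Equiv.Perm S)⁻¹ x = (f : Equiv.Perm S).symm x := rfl
    rw [e] at hx
    rw [hx, Equiv.apply_symm_apply]
  refine ⟨fun A hA => ?_, fun A hA => ?_, fun A hA => ?_⟩
  · refine (f.2.1 A hA).congr ?_
    filter_upwards [hae] with x hx
    rw [eq_iff_iff]
    show (f : Equiv.Perm S) x ∈ A ↔ h x ∈ A
    rw [hx]
  · refine (f.2.2.1 A hA).congr ?_
    filter_upwards [hae'] with x hx
    rw [eq_iff_iff]
    show (f : Equiv.Perm S).symm x ∈ A ↔ h.symm x ∈ A
    rw [hx]
  · rw [← f.2.2.2 A hA]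
    refine measure_congr ?_
    filter_upwards [hae] with x hx
    rw [eq_iff_iff]
    show h x ∈ A ↔ (f : Equiv.Perm S) x ∈ A
    rw [hx]

theorem exists_equiv : ∃ (M : Set S) (φ : (IETflip ⧸ Lam) ≃ S), volume M = 0 ∧
    ∀ x ∉ M, φ (emb x) = x := by
  classical
  obtain ⟨M, hM0, hMc⟩ := exists_null_circle
  have hY : #(IETflip ⧸ Lam) ≤ 𝔠 := Cardinal.mk_quotient_le.trans card_IET
  have hcard : #((emb '' Mᶜ)ᶜ : Set (IETflip ⧸ Lam)) = #M := by
    apply le_antisymm
    · rw [hMc]
      exact (Cardinal.mk_set_le _).trans hY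
    · have : #(emb '' M) = #M := Cardinal.mk_image_eq emb_injective
      rw [← this]
      refine Cardinal.mk_le_mk_of_subset ?_
      rintro _ ⟨x, hx, rfl⟩ ⟨y, hy, hxy⟩
      exact hy ((emb_injective hxy) ▸ hx)
  obtain ⟨e⟩ := Cardinal.eq.1 hcard
  have e1 : (emb '' Mᶜ : Set (IETflip ⧸ Lam)) ≃ (Mᶜ : Set S) :=
    (Equiv.Set.image emb Mᶜ emb_injective).symm
  refine ⟨M, (Equiv.Set.sumCompl (emb '' Mᶜ)).symm.trans
    (((Equiv.Set.image emb Mᶜ emb_injective).symm.sumCongr e).trans
      ((Equiv.sumComm _ _).trans (Equiv.Set.sumCompl M))), hM0, ?_⟩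
  intro x hx
  have hmem : emb x ∈ emb '' Mᶜ := ⟨x, hx, rfl⟩
  rw [Equiv.trans_apply, Equiv.Set.sumCompl_symm_apply_of_mem hmem]
  have h2 : (Equiv.Set.image emb Mᶜ emb_injective).symm ⟨emb x, hmem⟩ = ⟨x, hx⟩ := by
    rw [Equiv.symm_apply_eq]
    rfl
  simp [h2]

/-- **`p : Ĝ → G` splits over `IET^⋈`**: there is a group homomorphism `σ : IET^⋈ → Ĝ` with
`p (σ g) = g` for every `g ∈ IET^⋈`. -/
theorem main : ∃ σ : IETflip →* Ghat, ∀ g : IETflip, p (σ g) = (g : G) := by
  classical
  have hns := nullSingleton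
  obtain ⟨M, φ, hM0, hφ⟩ := exists_equiv
  set τ : IETflip →* Equiv.Perm S :=
    (Equiv.permCongrHom φ).toMonoidHom.comp (MulAction.toPermHom IETflip (IETflip ⧸ Lam)) with hτ
  have hτ' : ∀ (g : IETflip) (x : S), τ g x = φ (g • φ.symm x) := fun g x => rfl
  have key : ∀ (g : IETflip), ∃ f : Ghat, p f = g ∧
      ∀ᵐ x ∂(volume : Measure S), τ g x = (f : Equiv.Perm S) x := by
    rintro g
    obtain ⟨f₀, hf₀, hfg⟩ := g.2
    set f : Ghat := ⟨f₀, hf₀.mem_Ghat⟩ with hfdef
    have hf : LocIso (f : Equiv.Perm S) := (isPiecewiseIsometric_iff _).1 hf₀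
    refine ⟨f, hfg, ?_⟩
    obtain ⟨F, hF⟩ := smul_emb g f hf hfg
    have h1 : ∀ᵐ x ∂(volume : Measure S), x ∉ M := measure_eq_zero_iff_ae_notMem.1 hM0
    have h2 : ∀ᵐ x ∂(volume : Measure S), (f : Equiv.Perm S) x ∉ M := ae_comp f (P := fun x => x ∉ M) h1
    have h3 : ∀ᵐ x ∂(volume : Measure S), x ∉ (F : Set S) :=
      measure_eq_zero_iff_ae_notMem.1 (Set.Finite.measure_zero (Finset.finite_toSet _) _)
    filter_upwards [h1, h2, h3] with x hx1 hx2 hx3
    have h4 : φ.symm x = emb x := by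
      rw [Equiv.symm_apply_eq]
      exact (hφ x hx1).symm
    rw [hτ', h4, hF x (by simpa using hx3), hφ _ hx2]
  have hmem : ∀ g : IETflip, τ g ∈ Ghat := by
    intro g
    obtain ⟨f, _, hf⟩ := key g
    exact mem_Ghat_of_ae f hf
  refine ⟨τ.codRestrict Ghat hmem, fun g => ?_⟩
  obtain ⟨f, hfg, hf⟩ := key g
  rw [← hfg, p_eq_iff]
  exact hf

end Pool.Agent.Lib_MP_83934b_an
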